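import Pool.Agent.Helper88.AD.Stmts

/-!
Packet AD-BINOM (MP_ccb3f4_gt).
-/

set_option autoImplicit false

namespace Pool.Agent.Helper27.AD

open Pool.Agent.Helper88.AD

theorem isD_lr {d : ℕ} (ε : Fin d → Bool) (σ : Equiv.Perm (Fin d)) : IsD (lr ε σ) := by
  intro x
  have hnd : (lr ε σ).Nodup := by
    unfold lr
    rw [List.nodup_append]
    refine ⟨?_, ?_, ?_⟩
    · rw [List.nodup_ofFn]
      intro i j h
      simpa using congrArg Prod.fst h
    · rw [List.nodup_ofFn]
      intro i j h
      have := congrArg Prod.fst h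
      simpa using this
    · intro a ha b hb hab
      rw [List.mem_ofFn] at ha hb
      obtain ⟨i, rfl⟩ := ha
      obtain ⟨k, rfl⟩ := hb
      have h1 := congrArg Prod.fst hab
      have h2 := congrArg Prod.snd hab
      simp only at h1 h2
      rw [← h1] at h2
      cases h3 : ε i <;> simp [h3] at h2
  refine List.count_eq_one_of_mem hnd ?_
  unfold lr
  rw [List.mem_append, List.mem_ofFn, List.mem_ofFn]
  obtain ⟨i, b⟩ := x
  by_cases h : b = ε i
  · exact Or.inl ⟨i, by simp [h]⟩
  · refine Or.inr ⟨σ.symm i, ?_⟩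
    simp only [Equiv.apply_symm_apply, Prod.mk.injEq, true_and]
    cases hb : b <;> cases he : ε i <;> simp_all

theorem finiteDg (d : ℕ) : Finite (Dg d) := by
  have h : ∀ w : List (Pt d), IsD w → w.length = (Finset.univ : Finset (Pt d)).toList.length := by
    intro w hw
    apply List.Perm.length_eq
    rw [List.perm_iff_count]
    intro x
    rw [hw x]
    exact (List.count_eq_one_of_mem (Finset.nodup_toList _) (by simp)).symm
  have hfin := List.finite_length_eq (Pt d) (Finset.univ : Finset (Pt d)).toList.length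
  exact Set.Finite.subset hfin (fun w hw => h w hw)

/-- the pairs `(a,b)` with `a + 3 ≤ b ≤ s`. -/
def P3 (s : ℕ) : Finset (ℕ × ℕ) :=
  ((Finset.range (s + 1)) ×ˢ (Finset.range (s + 1))).filter (fun q => q.1 + 3 ≤ q.2)

lemma mem_P3 {s : ℕ} {q : ℕ × ℕ} : q ∈ P3 s ↔ q.1 + 3 ≤ q.2 ∧ q.2 ≤ s := by
  unfold P3
  simp only [Finset.mem_filter, Finset.mem_product, Finset.mem_range]
  omega

lemma card_P3 (s : ℕ) (hs : 1 ≤ s) : (P3 s).card = (s - 1) * (s - 2) / 2 := by
  induction s with
  | zero => omega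
  | succ s ih =>
    rcases Nat.eq_zero_or_pos s with h0 | h0
    · subst h0; decide
    have hrec : P3 (s + 1) = P3 s ∪ (Finset.range (s - 1)).image (fun a => (a, s + 1)) := by
      ext ⟨a, b⟩
      simp only [mem_P3, Finset.mem_union, Finset.mem_image, Finset.mem_range, Prod.mk.injEq]
      constructor
      · rintro ⟨h1, h2⟩
        by_cases h3 : b ≤ s
        · exact Or.inl ⟨h1, h3⟩
        · exact Or.inr ⟨a, by omega, rfl, by omega⟩
      · rintro (⟨h1, h2⟩ | ⟨x, h1, h2, h3⟩)
        · omega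
        · omega
    have hdis : Disjoint (P3 s) ((Finset.range (s - 1)).image (fun a => (a, s + 1))) := by
      rw [Finset.disjoint_left]
      rintro ⟨a, b⟩ h1 h2
      rw [mem_P3] at h1
      simp only [Finset.mem_image, Finset.mem_range, Prod.mk.injEq] at h2 h1
      obtain ⟨x, -, -, h3⟩ := h2
      omega
    rw [hrec, Finset.card_union_of_disjoint hdis, ih h0,
      Finset.card_image_of_injective _ (fun x y h => by simpa using congrArg Prod.fst h),
      Finset.card_range]
    obtain ⟨t, rfl⟩ : ∃ t, s = t + 1 := ⟨s - 1, by omega⟩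
    rcases Nat.eq_zero_or_pos t with h1 | h1
    · subst h1; decide
    obtain ⟨r, rfl⟩ : ∃ r, t = r + 1 := ⟨t - 1, by omega⟩
    have e1 : r + 1 + 1 - 1 = r + 1 := by omega
    have e2 : r + 1 + 1 - 2 = r := by omega
    have e3 : r + 1 + 1 + 1 - 1 = r + 2 := by omega
    have e4 : r + 1 + 1 + 1 - 2 = r + 1 := by omega
    rw [e1, e2, e3, e4]
    have e5 : (r + 2) * (r + 1) = (r + 1) * r + (r + 1) * 2 := by ring
    rw [e5, Nat.add_mul_div_right _ _ (by norm_num)]

theorem stmtBinom (hT : StmtTrace) (hC : StmtCYBE) (hK : StmtCoef) (hE : StmtEnum) :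
    StmtBinom := by
  classical
  intro s d hs hsd
  obtain ⟨f, hf0, hf1⟩ := hT (KK s) (Fin (s + 1)) RR (AA s) (BB s) (hC s) d
  set B1 : Finset (ℕ × ℕ) := (Finset.range s).image (fun a => (a, a + 1)) with hB1
  set B2 : Finset (ℕ × ℕ) := (Finset.range (s - 1)).image (fun a => (a, a + 2)) with hB2
  have mB1 : ∀ q : ℕ × ℕ, q ∈ B1 ↔ q.2 = q.1 + 1 ∧ q.2 ≤ s := by
    rintro ⟨a, b⟩
    simp only [hB1, Finset.mem_image, Finset.mem_range, Prod.mk.injEq]
    constructor
    · rintro ⟨x, h1, h2, h3⟩; omega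
    · rintro ⟨h1, h2⟩; exact ⟨a, by omega, rfl, by omega⟩
  have mB2 : ∀ q : ℕ × ℕ, q ∈ B2 ↔ q.2 = q.1 + 2 ∧ q.2 ≤ s := by
    rintro ⟨a, b⟩
    simp only [hB2, Finset.mem_image, Finset.mem_range, Prod.mk.injEq]
    constructor
    · rintro ⟨x, h1, h2, h3⟩; omega
    · rintro ⟨h1, h2⟩; exact ⟨a, by omega, rfl, by omega⟩
  have cB1 : B1.card = s := by
    rw [hB1, Finset.card_image_of_injective _ (fun x y h => by simpa using congrArg Prod.fst h),
      Finset.card_range]
  have cB2 : B2.card = s - 1 := by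
    rw [hB2, Finset.card_image_of_injective _ (fun x y h => by simpa using congrArg Prod.fst h),
      Finset.card_range]
  set PP := (P3 s).powersetCard (d + 1 - 2 * s) with hPP
  have hU : ∀ U ∈ PP, (∀ q ∈ U, q.1 + 3 ≤ q.2 ∧ q.2 ≤ s) ∧ U.card = d + 1 - 2 * s := by
    intro U hU
    rw [hPP, Finset.mem_powersetCard] at hU
    exact ⟨fun q hq => mem_P3.mp (hU.1 hq), hU.2⟩
  have hcard : ∀ U ∈ PP, (B1 ∪ (B2 ∪ U)).card = d := by
    intro U hUm
    obtain ⟨h1, h2⟩ := hU U hUm
    have d1 : Disjoint B2 U := by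
      rw [Finset.disjoint_left]
      intro q hq hq'
      have := (mB2 q).mp hq
      have := h1 q hq'
      omega
    have d2 : Disjoint B1 (B2 ∪ U) := by
      rw [Finset.disjoint_left]
      intro q hq hq'
      have h3 := (mB1 q).mp hq
      rw [Finset.mem_union] at hq'
      rcases hq' with h4 | h4
      · have := (mB2 q).mp h4; omega
      · have := h1 q h4; omega
    rw [Finset.card_union_of_disjoint d2, Finset.card_union_of_disjoint d1, cB1, cB2, h2]
    omega
  have hen : ∀ U : {U // U ∈ PP}, ∃ (z : Fin d → ℕ × ℕ) (σ : Equiv.Perm (Fin d)), Adm s z σ ∧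
      Finset.univ.image z = B1 ∪ (B2 ∪ U.1) := by
    rintro ⟨U, hUm⟩
    refine hE s d _ (hcard U hUm) ?_ ?_
    · intro q hq
      rw [Finset.mem_union, Finset.mem_union] at hq
      rcases hq with h | h | h
      · have := (mB1 q).mp h; omega
      · have := (mB2 q).mp h; omega
      · have := (hU U hUm).1 q h; omega
    · intro a ha
      rw [Finset.mem_union]
      left
      rw [mB1]
      exact ⟨rfl, by simpa using ha⟩
  choose z σ hadm himg using hen
  have hfilter : ∀ U : {U // U ∈ PP},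
      (Finset.univ.image (z U)).filter (fun q => q.1 + 2 ≤ q.2) = B2 ∪ U.1 := by
    intro U
    rw [himg U]
    ext q
    simp only [Finset.mem_filter, Finset.mem_union]
    constructor
    · rintro ⟨h | h | h, h2⟩
      · have := (mB1 q).mp h; omega
      · exact Or.inl h
      · exact Or.inr h
    · rintro (h | h)
      · exact ⟨Or.inr (Or.inl h), by have := (mB2 q).mp h; omega⟩
      · exact ⟨Or.inr (Or.inr h), by have := (hU U.1 U.2).1 q h; omega⟩
  have hinj : ∀ U U' : {U // U ∈ PP}, B2 ∪ U'.1 = B2 ∪ U.1 → U' = U := by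
    intro U U' h
    apply Subtype.ext
    have key : ∀ (V : {U // U ∈ PP}), (B2 ∪ V.1).filter (fun q => q.1 + 3 ≤ q.2) = V.1 := by
      intro V
      ext q
      simp only [Finset.mem_filter, Finset.mem_union]
      constructor
      · rintro ⟨h1 | h1, h2⟩
        · have := (mB2 q).mp h1; omega
        · exact h1
      · intro h1
        exact ⟨Or.inr h1, by have := (hU V.1 V.2).1 q h1; omega⟩
    rw [← key U', ← key U, h]
  have hcoef : ∀ U U' : {U // U ∈ PP},
      MvPolynomial.coeff (∑ q ∈ (B2 ∪ U'.1), Finsupp.single q 1)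
        (trw (AA s) (BB s) (lr (fun _ => true) (σ U))) = if U' = U then 1 else 0 := by
    intro U U'
    rw [hK s d (z U) (σ U) (hadm U) (B2 ∪ U'.1) ?_ ?_, hfilter U]
    · by_cases h : U' = U
      · rw [if_pos h, if_pos (by rw [h])]
      · rw [if_neg h, if_neg (fun h2 => h (hinj U U' h2))]
    · intro q hq
      rw [Finset.mem_union] at hq
      rcases hq with h | h
      · have := (mB2 q).mp h; omega
      · have := (hU U'.1 U'.2).1 q h; omega
    · intro v hv
      by_cases hv2 : v + 2 ≤ s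
      · exact ⟨(v, v + 2), Finset.mem_union_left _ ((mB2 _).mpr ⟨rfl, hv2⟩), Or.inl rfl⟩
      · refine ⟨(v - 2, v), Finset.mem_union_left _ ((mB2 _).mpr ⟨?_, hv⟩), Or.inr rfl⟩
        simp only
        omega
  -- the linear map
  let g : AS d →ₗ[ℚ] RR := (relS d).liftQ f (fun x hx => by
    rw [LinearMap.mem_ker]; exact hf0 x hx)
  let L : AS d →ₗ[ℚ] ({U // U ∈ PP} → ℚ) := LinearMap.pi fun U' =>
    (MvPolynomial.lcoeff ℚ (∑ q ∈ (B2 ∪ U'.1), Finsupp.single q 1)) ∘ₗ g
  let v : {U // U ∈ PP} → AS d := fun U =>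
    Submodule.Quotient.mk (el (lr (fun _ => true) (σ U)))
  have hLv : ∀ U, L (v U) = Pi.single U 1 := by
    intro U
    ext U'
    have h1 : L (v U) U' = MvPolynomial.coeff (∑ q ∈ (B2 ∪ U'.1), Finsupp.single q 1)
        (f (el (lr (fun _ => true) (σ U)))) := rfl
    rw [h1, hf1 _ (isD_lr _ _), hcoef U U', Pi.single_apply]
  have hli : LinearIndependent ℚ v := by
    apply LinearIndependent.of_comp L
    have : (L ∘ v) = fun U => (Pi.basisFun ℚ {U // U ∈ PP}) U := by
      funext U
      rw [Pi.basisFun_apply]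
      exact hLv U
    rw [this]
    exact (Pi.basisFun ℚ {U // U ∈ PP}).linearIndependent
  have : Finite (Dg d) := finiteDg d
  have hfin : Module.Finite ℚ (Dg d →₀ ℚ) := inferInstance
  have hfin2 : Module.Finite ℚ (AS d) := inferInstance
  have h1 := hli.fintype_card_le_finrank
  have h2 : Fintype.card {U // U ∈ PP} = ((s - 1) * (s - 2) / 2).choose (d + 1 - 2 * s) := by
    rw [Fintype.card_coe, hPP, Finset.card_powersetCard, card_P3 s (by omega)]
  rw [h2] at h1
  exact h1

end Pool.Agent.Helper27.AD
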